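import Pool.Agent.H85.MWSph

namespace Pool.Agent.Results.MP_84aa88_gt.NotCanonical

open Pool.Agent.H85 Pool.Agent.H85.MW2

/-- There is a monotonic, mean width preserving symmetrization `𝒦² → 𝒦²_{o}`, invariant on
`o`-symmetric sets, that maps some line segment to a set that is not a line segment. -/
theorem result : ∃ D : Set (EuclideanSpace ℝ (Fin 2)) → Set (EuclideanSpace ℝ (Fin 2)),
    (∀ K, Cls false K → Cls false (D K) ∧ D K = -D K) ∧
    (∀ K L, Cls false K → Cls false L → K ⊆ L → D K ⊆ D L) ∧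
    (∀ K, Cls false K → K = -K → D K = K) ∧
    (∀ K, Cls false K → mw (D K) = mw K) ∧
    ∃ p q : EuclideanSpace ℝ (Fin 2), p ≠ q ∧
      ∀ a b : EuclideanSpace ℝ (Fin 2), D (segment ℝ p q) ≠ segment ℝ a b := by
  have hg := MW.good_D (n := 2) (by norm_num) false
  have hpq : (!₂[1, 1] : EuclideanSpace ℝ (Fin 2)) ≠ !₂[1, -1] := fun h => by
    have := congrArg (fun z : EuclideanSpace ℝ (Fin 2) => z 1) h
    norm_num at this
  refine ⟨MW.D, fun K hK => ⟨(hg.maps K hK).1, ?_⟩, hg.mono, fun K hK hs => hg.fixes K hK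
    (MW.sym_bot.2 fun x hx => ?_), hg.width, !₂[1, 1], !₂[1, -1], hpq, fun a b h => ?_⟩
  · ext x
    exact ⟨fun hx => MW.D_neg hx, fun hx => by simpa using MW.D_neg (Set.mem_neg.1 hx)⟩
  · rw [hs] at hx
    exact hx
  · set A := segment ℝ (!₂[1, 1] : EuclideanSpace ℝ (Fin 2)) !₂[1, -1]
    have hA : IsCompact A := by
      rw [show A = _ from segment_eq_image_lineMap ℝ _ _]
      exact isCompact_Icc.image AffineMap.lineMap_continuous
    have ht := MW.θ_pos hA (convex_segment _ _) (left_mem_segment _ _ _)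
      (right_mem_segment _ _ _) hpq
    have h1 : _ ∈ MW.D A :=
      MW.mem_D.2 ⟨_, MW.subset_K0 (left_mem_segment _ _ _), 0, MW.zero_mem_K0, rfl⟩
    have h2 : _ ∈ MW.D A :=
      MW.mem_D.2 ⟨_, MW.subset_K0 (right_mem_segment _ _ _), 0, MW.zero_mem_K0, rfl⟩
    have h3 : _ ∈ MW.D A := MW.zero_mem_D
    rw [h, segment_eq_image'] at h1 h2 h3
    obtain ⟨s1, -, e1⟩ := h1
    obtain ⟨s2, -, e2⟩ := h2
    obtain ⟨s3, -, e3⟩ := h3
    have a0 := congrArg (fun z : EuclideanSpace ℝ (Fin 2) => z 0) e1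
    have a1 := congrArg (fun z : EuclideanSpace ℝ (Fin 2) => z 1) e1
    have b0 := congrArg (fun z : EuclideanSpace ℝ (Fin 2) => z 0) e2
    have b1 := congrArg (fun z : EuclideanSpace ℝ (Fin 2) => z 1) e2
    have c0 := congrArg (fun z : EuclideanSpace ℝ (Fin 2) => z 0) e3
    have c1 := congrArg (fun z : EuclideanSpace ℝ (Fin 2) => z 1) e3
    simp at a0 a1 b0 b1 c0 c1
    have d0 : (s1 - s3) * (b 0 - a 0) = MW.θ A / 2 := by linarith
    have d1 : (s1 - s3) * (b 1 - a 1) = MW.θ A / 2 := by linarith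
    have d2 : (s2 - s3) * (b 0 - a 0) = MW.θ A / 2 := by linarith
    have d3 : (s2 - s3) * (b 1 - a 1) = -(MW.θ A / 2) := by linarith
    have : MW.θ A / 2 * -(MW.θ A / 2) = MW.θ A / 2 * (MW.θ A / 2) := by
      nth_rewrite 1 [← d0]
      rw [← d3]
      nth_rewrite 1 [← d1]
      rw [← d2]
      ring
    nlinarith

end Pool.Agent.Results.MP_84aa88_gt.NotCanonical
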